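import Pool.Agent.helper70.M10.Defs
import Pool.Agent.helper70.M8.C2
import Pool.Agent.helper70.M8.L

set_option autoImplicit false

/-!
# M10-A: pull-backs, parts of a box, stability of the analytic conditions
-/

open MvPolynomial Set Filter Topology

namespace Oct.N

open Oct

/-! ### C1 -/

private theorem eval_polT (l : List ℤ) (t s : ℝ) : eval ![t, s] (polT l) = evR l t := by
  induction l with
  | nil => simp [polT, evR]
  | cons c l ih =>
    have h1 : polT (c :: l) = C (c : ℝ) + X 0 * polT l := rfl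
    have h2 : evR (c :: l) t = (c : ℝ) + t * evR l t := rfl
    rw [h1, h2, ← ih]
    simp

theorem eval_pull (F : MvPolynomial (Fin 3) ℝ) (c : Chart) (t u : ℝ) :
    eval ![t, u] (c.pull F) = eval (c.pt t u) F := by
  unfold Chart.pull
  rw [MvPolynomial.aeval_def, MvPolynomial.eval_eval₂]
  have h1 : (fun s => eval ![t, u] ((![C (c.x0 : ℝ) + C (c.x1 : ℝ) * X 0,
      C (c.y0 : ℝ) + C (c.y1 : ℝ) * X 0,
      C (c.al : ℝ) * X 1 + polT c.be] :
        Fin 3 → MvPolynomial (Fin 2) ℝ) s)) = c.pt t u := by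
    funext i
    fin_cases i
    · simp [Chart.pt, Chart.vx]
    · simp [Chart.pt, Chart.vy]
    · simp [Chart.pt, Chart.ber, eval_polT]
  have h2 : (eval ![t, u]).comp (algebraMap ℝ (MvPolynomial (Fin 2) ℝ)) = RingHom.id ℝ := by
    ext r
    simp
  rw [h1, h2]
  rfl

theorem eval_pullEnd (F : MvPolynomial (Fin 3) ℝ) (c : Chart) (h : ℤ) (σ : Bool) (t s : ℝ) :
    eval ![t, s] (c.pullEnd h σ F) = eval (s • c.pt t h + (1 - s) • pole (!σ)) F := by
  unfold Chart.pullEnd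
  rw [MvPolynomial.aeval_def, MvPolynomial.eval_eval₂]
  have h1 : (fun i => eval ![t, s] ((![X 1 * (C (c.x0 : ℝ) + C (c.x1 : ℝ) * X 0),
      X 1 * (C (c.y0 : ℝ) + C (c.y1 : ℝ) * X 0),
      X 1 * (C (c.al * h : ℝ) + polT c.be) + C (sg σ) * (1 - X 1)] :
        Fin 3 → MvPolynomial (Fin 2) ℝ) i)) = s • c.pt t h + (1 - s) • pole (!σ) := by
    funext i
    fin_cases i
    · simp [Chart.pt, Chart.vx, pole]
    · simp [Chart.pt, Chart.vy, pole]
    · simp [Chart.pt, Chart.ber, pole, eval_polT]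
      ring
  have h2 : (eval ![t, s]).comp (algebraMap ℝ (MvPolynomial (Fin 2) ℝ)) = RingHom.id ℝ := by
    ext r
    simp
  rw [h1, h2]
  rfl

/-! ### C2 -/

private theorem up_of_pos {P : MvPolynomial (Fin 2) ℝ} {σ : Bool} {a b lo hi : ℝ}
    (h : PosOn (C (sg σ) * pderiv 1 P) a b lo hi) {t : ℝ} (ht : t ∈ Icc a b) :
    Up (fun u => sg σ * eval ![t, u] P) (Icc lo hi) := by
  refine C2.strictMono_of_pos (fun y => (hasDerivAt_snd P t y).const_mul (sg σ)) (fun y hy => ?_)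
  have := h t ht y hy
  simpa using this

private theorem valley_of_pos {P : MvPolynomial (Fin 2) ℝ} {σ : Bool} {t lo hi : ℝ}
    (h : PosOn (C (sg σ) * pderiv 1 (pderiv 1 P)) t t lo hi) :
    Valley (fun u => sg σ * eval ![t, u] P) (Icc lo hi) :=
  valley_of_cvC (o := 0) (k := 0) (k' := 0) (Or.inl ⟨rfl, h⟩)

private theorem lo_le {b : Box} (hs : 0 < b.s) : (b.lo : ℝ) ≤ b.hi := by
  have : b.lo ≤ b.hi := by simp only [Box.lo, Box.hi]; omega
  exact_mod_cast this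

theorem box_conn {F : MvPolynomial (Fin 3) ℝ} {ch : Chart} {b : Box} (h : BoxOK F ch b)
    (hs : 0 < b.s) (s : S3) :
    IsPreconnected {p : ℝ × ℝ | p.1 ∈ Icc (0 : ℝ) 1 ∧ p.2 ∈ Icc (b.lo : ℝ) b.hi ∧
      s.Has (eval (ch.pt p.1 p.2) F)} := by
  have hab : (0 : ℝ) ≤ 1 := zero_le_one
  have hlo : (b.lo : ℝ) ≤ b.hi := lo_le hs
  simp only [← eval_pull]
  simp only [BoxOK] at h
  generalize ch.pull F = P at h ⊢
  obtain ⟨hL, hH, h⟩ := h
  rw [C2.posOn_iff] at hL hH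
  rcases h with ⟨-, -, h0⟩ | ⟨-, hsl, hd⟩ | ⟨-, -, h1, hd, hdd, -⟩ | ⟨-, -, h1, hd, hdd, -⟩
  · rw [C2.posOn_iff] at h0
    have hcase : ({p : ℝ × ℝ | p.1 ∈ Icc (0 : ℝ) 1 ∧ p.2 ∈ Icc (b.lo : ℝ) b.hi ∧
        s.Has (eval ![p.1, p.2] P)} = Icc (0 : ℝ) 1 ×ˢ Icc (b.lo : ℝ) b.hi) ∨
        {p : ℝ × ℝ | p.1 ∈ Icc (0 : ℝ) 1 ∧ p.2 ∈ Icc (b.lo : ℝ) b.hi ∧
        s.Has (eval ![p.1, p.2] P)} = ∅ := by
      by_cases hsb : s = S3.of b.sl
      · left
        ext p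
        simp only [Set.mem_ofPred_eq, mem_prod]
        constructor
        · exact fun hp => ⟨hp.1, hp.2.1⟩
        · intro hp
          refine ⟨hp.1, hp.2, ?_⟩
          have h3 := h0 p.1 hp.1 p.2 hp.2
          rw [hsb]
          cases hb : b.sl
          · rw [hb] at h3
            simp only [sg, Bool.false_eq_true, if_false, neg_mul, one_mul, Left.neg_pos_iff] at h3
            simpa [S3.of, S3.Has] using h3
          · rw [hb] at h3
            simp only [sg, if_true, one_mul] at h3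
            simpa [S3.of, S3.Has] using h3
      · right
        rw [Set.eq_empty_iff_forall_notMem]
        rintro p ⟨hp1, hp2, hp3⟩
        apply hsb
        have h3 := h0 p.1 hp1 p.2 hp2
        cases hb : b.sl
        · rw [hb] at h3
          simp only [sg, Bool.false_eq_true, if_false, neg_mul, one_mul, Left.neg_pos_iff] at h3
          cases s
          · exact absurd hp3 (not_lt.mpr h3.le)
          · rfl
          · exact absurd hp3 h3.ne
        · rw [hb] at h3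
          simp only [sg, if_true, one_mul] at h3
          cases s
          · rfl
          · exact absurd hp3 (not_lt.mpr h3.le)
          · exact absurd hp3 h3.ne'
    rcases hcase with hc | hc
    · rw [hc]
      exact isPreconnected_Icc.prod isPreconnected_Icc
    · rw [hc]
      exact isPreconnected_empty
  · refine C2.type1 hlo b.sh ?_ ?_ (fun x hx => up_of_pos hd hx) s
    · intro t ht
      have := hL t ht b.lo ⟨le_rfl, le_rfl⟩
      rw [hsl, C2.sg_not] at this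
      linarith
    · intro t ht
      exact hH t ht b.hi ⟨le_rfl, le_rfl⟩
  · rw [C2.posOn_iff] at h1 hd
    exact C2.type2 hab b.sl (fun u hu => h1 _ ⟨le_rfl, le_rfl⟩ u hu) hd
      (valley_of_pos hdd) s
  · rw [C2.posOn_iff] at h1 hd
    exact C2.type3 hab b.sl (fun u hu => h1 _ ⟨le_rfl, le_rfl⟩ u hu) hd
      (valley_of_pos hdd) s

theorem box_act {F : MvPolynomial (Fin 3) ℝ} {ch : Chart} {b : Box} (h : BoxOK F ch b)
    (hs : 0 < b.s) (s : S3) :
    (∃ t ∈ Icc (0 : ℝ) 1, ∃ u ∈ Icc (b.lo : ℝ) b.hi, s.Has (eval (ch.pt t u) F)) ↔ b.Act s := by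
  have hab : (0 : ℝ) ≤ 1 := zero_le_one
  have hlo : (b.lo : ℝ) ≤ b.hi := lo_le hs
  have hc1 : (b.lo : ℝ) ≤ b.c := by
    have : b.lo ≤ b.c := by simp only [Box.lo]; omega
    exact_mod_cast this
  have hc2 : (b.c : ℝ) ≤ b.hi := by
    have : b.c ≤ b.hi := by simp only [Box.hi]; omega
    exact_mod_cast this
  simp only [← eval_pull]
  simp only [BoxOK, C2.posOn_iff] at h
  generalize ch.pull F = P at h ⊢
  obtain ⟨hL, hH, h⟩ := h
  have hcont := C2.cont_eval P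
  rcases h with ⟨hty, -, h0⟩ | ⟨hty, hsl, hd⟩ | ⟨hty, -, h1, hd, hdd, hin⟩ |
    ⟨hty, -, h1, hd, hdd, hin⟩
  · constructor
    · rintro ⟨t, ht, u, hu, hp3⟩ -
      have h3 := h0 t ht u hu
      cases hb : b.sl
      · rw [hb] at h3
        simp only [sg, Bool.false_eq_true, if_false, neg_mul, one_mul, Left.neg_pos_iff] at h3
        cases s
        · exact absurd hp3 (not_lt.mpr h3.le)
        · rfl
        · exact absurd hp3 h3.ne
      · rw [hb] at h3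
        simp only [sg, if_true, one_mul] at h3
        cases s
        · rfl
        · exact absurd hp3 (not_lt.mpr h3.le)
        · exact absurd hp3 h3.ne'
    · intro hact
      have hsb := hact hty
      refine ⟨0, ⟨le_rfl, hab⟩, b.lo, ⟨le_rfl, hlo⟩, ?_⟩
      have h3 := h0 0 ⟨le_rfl, hab⟩ b.lo ⟨le_rfl, hlo⟩
      rw [hsb]
      cases hb : b.sl
      · rw [hb] at h3
        simp only [sg, Bool.false_eq_true, if_false, neg_mul, one_mul, Left.neg_pos_iff] at h3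
        simpa [S3.of, S3.Has] using h3
      · rw [hb] at h3
        simp only [sg, if_true, one_mul] at h3
        simpa [S3.of, S3.Has] using h3
  · refine iff_of_true ?_ (fun h => by omega)
    have e1 := hL 0 ⟨le_rfl, hab⟩ b.lo ⟨le_rfl, le_rfl⟩
    have e2 := hH 0 ⟨le_rfl, hab⟩ b.hi ⟨le_rfl, le_rfl⟩
    rw [hsl, C2.sg_not] at e1
    exact C2.occ_sg hcont b.sh (⟨le_rfl, hab⟩ : (0 : ℝ) ∈ Icc (0 : ℝ) 1)
      (u := b.hi) (v := b.lo) ⟨hlo, le_rfl⟩ ⟨le_rfl, hlo⟩ e2 (by linarith) s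
  · refine iff_of_true ?_ (fun h => by omega)
    have e1 := hL 1 ⟨hab, le_rfl⟩ b.lo ⟨le_rfl, le_rfl⟩
    have e2 := hin 1 ⟨le_rfl, le_rfl⟩ b.c ⟨le_rfl, le_rfl⟩
    exact C2.occ_sg hcont b.sl (⟨hab, le_rfl⟩ : (1 : ℝ) ∈ Icc (0 : ℝ) 1)
      (u := b.lo) (v := b.c) ⟨le_rfl, hlo⟩ ⟨hc1, hc2⟩ e1 (by linarith) s
  · refine iff_of_true ?_ (fun h => by omega)
    have e1 := hL 0 ⟨le_rfl, hab⟩ b.lo ⟨le_rfl, le_rfl⟩
    have e2 := hin 0 ⟨le_rfl, le_rfl⟩ b.c ⟨le_rfl, le_rfl⟩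
    exact C2.occ_sg hcont b.sl (⟨le_rfl, hab⟩ : (0 : ℝ) ∈ Icc (0 : ℝ) 1)
      (u := b.lo) (v := b.c) ⟨le_rfl, hlo⟩ ⟨hc1, hc2⟩ e1 (by linarith) s

/-! ### K -/

private theorem posOn_stable {P : MvPolynomial (Fin 2) ℝ} (Q : MvPolynomial (Fin 2) ℝ)
    {a b c d : ℝ} (h : PosOn P a b c d) : ∀ᶠ ε in 𝓝 (0 : ℝ), PosOn (P + C ε * Q) a b c d := by
  have hK : IsCompact (Icc a b ×ˢ Icc c d) := isCompact_Icc.prod isCompact_Icc
  have hP := C2.cont_eval P
  have hQ := C2.cont_eval Q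
  have hcont : Continuous (fun z : ℝ × (ℝ × ℝ) =>
      eval ![z.2.1, z.2.2] P + z.1 * eval ![z.2.1, z.2.2] Q) :=
    (hP.comp continuous_snd).add (continuous_fst.mul (hQ.comp continuous_snd))
  have hopen : IsOpen {z : ℝ × (ℝ × ℝ) |
      0 < eval ![z.2.1, z.2.2] P + z.1 * eval ![z.2.1, z.2.2] Q} :=
    isOpen_lt continuous_const hcont
  have hsub : ({0} : Set ℝ) ×ˢ (Icc a b ×ˢ Icc c d) ⊆ {z : ℝ × (ℝ × ℝ) |
      0 < eval ![z.2.1, z.2.2] P + z.1 * eval ![z.2.1, z.2.2] Q} := by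
    rintro ⟨ε, t, u⟩ ⟨h1, h2, h3⟩
    have h1' : ε = 0 := h1
    subst h1'
    have := h t h2 u h3
    simpa using this
  obtain ⟨U, V, hU, hV, hU0, hKV, hUV⟩ :=
    generalized_tube_lemma isCompact_singleton hK hopen hsub
  filter_upwards [hU.mem_nhds (hU0 rfl)] with ε hε
  intro t ht u hu
  have hmem : (ε, (t, u)) ∈ U ×ˢ V := ⟨hε, hKV ⟨ht, hu⟩⟩
  have := hUV hmem
  simpa using this

private theorem posOn_congr {P Q : MvPolynomial (Fin 2) ℝ} (h : P = Q) {a b c d : ℝ}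
    (hP : PosOn P a b c d) : PosOn Q a b c d := h ▸ hP

private theorem pull_add (c : Chart) (F G : MvPolynomial (Fin 3) ℝ) (ε : ℝ) :
    c.pull (F + C ε * G) = c.pull F + C ε * c.pull G := by
  unfold Chart.pull
  rw [map_add, map_mul, MvPolynomial.aeval_C, MvPolynomial.algebraMap_eq]

private theorem pullEnd_add (c : Chart) (h : ℤ) (σ : Bool) (F G : MvPolynomial (Fin 3) ℝ) (ε : ℝ) :
    c.pullEnd h σ (F + C ε * G) = c.pullEnd h σ F + C ε * c.pullEnd h σ G := by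
  unfold Chart.pullEnd
  rw [map_add, map_mul _ (C ε) G, MvPolynomial.aeval_C, MvPolynomial.algebraMap_eq]

private theorem pd_add (i : Fin 2) (P Q : MvPolynomial (Fin 2) ℝ) (ε : ℝ) :
    pderiv i (P + C ε * Q) = pderiv i P + C ε * pderiv i Q := by
  rw [map_add, pderiv_C_mul]

private theorem st {c : ℝ} {P : MvPolynomial (Fin 2) ℝ} {R : ℝ → MvPolynomial (Fin 2) ℝ}
    (Q : MvPolynomial (Fin 2) ℝ) (hR : ∀ ε, R ε = P + C ε * Q)
    {a b x y : ℝ} (h : PosOn (C c * P) a b x y) :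
    ∀ᶠ ε in 𝓝 (0 : ℝ), PosOn (C c * R ε) a b x y := by
  filter_upwards [posOn_stable (C c * Q) h] with ε hε
  refine posOn_congr ?_ hε
  rw [hR]
  ring

private theorem boxOK_stable {F : MvPolynomial (Fin 3) ℝ} (G : MvPolynomial (Fin 3) ℝ)
    {ch : Chart} {b : Box} (h : BoxOK F ch b) :
    ∀ᶠ ε in 𝓝 (0 : ℝ), BoxOK (F + C ε * G) ch b := by
  have e0 : ∀ ε, ch.pull (F + C ε * G) = ch.pull F + C ε * ch.pull G := pull_add ch F G
  have e1 : ∀ (i : Fin 2) ε, pderiv i (ch.pull (F + C ε * G)) =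
      pderiv i (ch.pull F) + C ε * pderiv i (ch.pull G) := by
    intro i ε; rw [e0, pd_add]
  have e2 : ∀ ε, pderiv 1 (pderiv 1 (ch.pull (F + C ε * G))) =
      pderiv 1 (pderiv 1 (ch.pull F)) + C ε * pderiv 1 (pderiv 1 (ch.pull G)) := by
    intro ε; rw [e1, pd_add]
  obtain ⟨h1, h2, h3⟩ := h
  rcases h3 with ⟨p1, p2, p3⟩ | ⟨p1, p2, p3⟩ | ⟨p1, p2, p3, p4, p5, p6⟩ | ⟨p1, p2, p3, p4, p5, p6⟩
  · filter_upwards [st _ e0 h1, st _ e0 h2, st _ e0 p3] with ε q1 q2 q3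
    exact ⟨q1, q2, Or.inl ⟨p1, p2, q3⟩⟩
  · filter_upwards [st _ e0 h1, st _ e0 h2, st _ (e1 1) p3] with ε q1 q2 q3
    exact ⟨q1, q2, Or.inr (Or.inl ⟨p1, p2, q3⟩)⟩
  · filter_upwards [st _ e0 h1, st _ e0 h2, st _ e0 p3, st _ (e1 0) p4, st _ e2 p5, st _ e0 p6]
      with ε q1 q2 q3 q4 q5 q6
    exact ⟨q1, q2, Or.inr (Or.inr (Or.inl ⟨p1, p2, q3, q4, q5, q6⟩))⟩
  · filter_upwards [st _ e0 h1, st _ e0 h2, st _ e0 p3, st _ (e1 0) p4, st _ e2 p5, st _ e0 p6]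
      with ε q1 q2 q3 q4 q5 q6
    exact ⟨q1, q2, Or.inr (Or.inr (Or.inr ⟨p1, p2, q3, q4, q5, q6⟩))⟩

private theorem ev_list {α : Type} {l : List α} {p : α → ℝ → Prop}
    (h : ∀ x ∈ l, ∀ᶠ ε in 𝓝 (0 : ℝ), p x ε) : ∀ᶠ ε in 𝓝 (0 : ℝ), ∀ x ∈ l, p x ε := by
  induction l with
  | nil => simp
  | cons y l ih =>
    simp only [List.mem_cons, forall_eq_or_imp]
    exact (h y (by simp)).and (ih (fun x hx => h x (by simp [hx])))

private theorem anaOK_stable {F : MvPolynomial (Fin 3) ℝ} (G : MvPolynomial (Fin 3) ℝ) {sp : Bool}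
    {cols : List Column} (h : AnaOK F sp cols) :
    ∀ᶠ ε in 𝓝 (0 : ℝ), AnaOK (F + C ε * G) sp cols := by
  refine ev_list (fun col hcol => ?_)
  obtain ⟨h1, h2, h3⟩ := h col hcol
  have h3' : ∀ᶠ ε in 𝓝 (0 : ℝ), ∀ b ∈ col.bx, BoxOK (F + C ε * G) (col.cb b) b :=
    ev_list (fun b hb => boxOK_stable G (h3 b hb))
  filter_upwards [st _ (pullEnd_add (col.cb col.lb) col.lb.hi true F G) h1,
    st _ (pullEnd_add (col.cb col.fb) col.fb.lo false F G) h2, h3'] with ε q1 q2 q3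
  exact ⟨q1, q2, q3⟩

theorem perturb {F : MvPolynomial (Fin 3) ℝ} {d : ℕ} (hF : F.IsHomogeneous d) (hd : 2 ≤ d)
    {sp : Bool} {cols : List Column} (h : AnaOK F sp cols) :
    ∃ F' : MvPolynomial (Fin 3) ℝ, F'.IsHomogeneous d ∧ Nonsingular F' ∧ AnaOK F' sp cols := by
  have h1 := anaOK_stable (X 0 ^ d + X 1 ^ d + X 2 ^ d) h
  have h2 := Oct.nonsing_generic hF hd
  have h3 : {ε : ℝ | AnaOK (F + C ε * (X 0 ^ d + X 1 ^ d + X 2 ^ d)) sp cols}.Infinite :=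
    infinite_of_mem_nhds 0 h1
  obtain ⟨ε, hε1, hε2⟩ := (h3.sdiff h2).nonempty
  refine ⟨F + C ε * (X 0 ^ d + X 1 ^ d + X 2 ^ d), ?_, not_not.1 hε2, hε1⟩
  refine hF.add (IsHomogeneous.C_mul ?_ ε)
  exact ((isHomogeneous_X_pow 0 d).add (isHomogeneous_X_pow 1 d)).add (isHomogeneous_X_pow 2 d)

end Oct.N
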